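import Pool.Agent.helper51.PC.PltPair
import Pool.Agent.helper51.VF.All

/-!
# MP_74cfa5_ag: plt centres on quotients of smooth varieties by foliations of rank one
-/

namespace Pool.Agent.Results.MP_74cfa5_ag.FoliationQuotients

universe u

open Pool.Agent.PltPair in
/-- Let `p` be a prime, `3 n (n - 1) < 2 p`, `k` an algebraically closed field of characteristic `p`,
`Y = Spec A` a smooth affine variety of dimension `n` over `k`, and `R` a normal subalgebra of `A` which contains
`A ^ p` and such that the rank of `A` over `R` is `p` (the generic rank, `[Frac A : Frac R] = p`). So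
`X = Spec R` is the quotient of `Y` by a `p`-closed foliation of rank one, for example by an action of `μ_p` or
`α_p`. If `(X, S + B)` is a plt pair, then `S` is normal. -/
theorem result : ∀ (n p : ℕ), p.Prime → 3 * n * (n - 1) < 2 * p →
    ∀ (k : Type u) [Field k] [IsAlgClosed k] [CharP k p]
    (A : Type u) [CommRing A] [IsDomain A] [Algebra k A] [Algebra.Smooth k A], ringKrullDim A = n →
    ∀ R : Subalgebra k A, IsIntegrallyClosed R → (∀ a : A, a ^ p ∈ R) → Module.finrank R A = p →
    ∀ (S : Ideal R) (B : Ideal R → ℚ), IsPlt k (FractionRing R) R n S B →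
    IsIntegrallyClosed (R ⧸ S) :=
  Pool.Agent.VF.all_MNF

end Pool.Agent.Results.MP_74cfa5_ag.FoliationQuotients
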