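import Pool.Agent.helper51.PC.PltPair
import Pool.Agent.helper51.PC.All2

/-!
# MP_74cfa5_ag: non-normal plt centres in dimension about the square root of `2 p`
-/

namespace Pool.Agent.Results.MP_74cfa5_ag.QuadraticLowerBound

universe u

open Pool.Agent.PltPair in
/-- Let `p ≥ 5` be a prime and `2 p ≤ (n - 1) (n - 2)`. Over every algebraically closed field `k` of
characteristic `p` there are an affine normal variety `X = Spec R` of dimension `n` and a principal
prime divisor `S = (x)` such that `(X, S)` is a plt pair and `S` is not normal. -/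
theorem result : ∀ (n p : ℕ), p.Prime → 5 ≤ p → 2 * p ≤ (n - 1) * (n - 2) →
    ∀ (k : Type u) [Field k] [IsAlgClosed k] [CharP k p],
    ∃ (R : Type u) (_ : CommRing R) (_ : IsDomain R) (_ : Algebra k R),
      Algebra.FiniteType k R ∧ IsIntegrallyClosed R ∧ ringKrullDim R = n ∧
      ∃ x : R, IsPlt k (FractionRing R) R n (Ideal.span {x}) (fun _ => 0) ∧
        ¬ IsIntegrallyClosed (R ⧸ (Ideal.span {x} : Ideal R)) :=
  Pool.Agent.PC.ALL2

end Pool.Agent.Results.MP_74cfa5_ag.QuadraticLowerBound
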