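import Pool.Agent.helper51.PC.PltPair
import Pool.Agent.helper51.QS.All

/-!
# MP_74cfa5_ag: plt centres on quotients of smooth varieties are normal if `2 p > 3 n (n - 1)`
-/

namespace Pool.Agent.Results.MP_74cfa5_ag.QuotientSingularities

universe u

open Pool.Agent.PltPair in
/-- Let `p` be a prime, `3 n (n - 1) < 2 p`, `k` an algebraically closed field of characteristic `p`,
`Y = Spec A` a smooth affine variety of dimension `n` over `k`, and `G` a finite group (its order may be
divisible by `p`) which acts on `Y` over `k` without ramification in codimension one: for `g ≠ 1` and every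
prime `Q` of height `1` of `A` there is `a` with `g a - a ∉ Q`. Let `X = Spec R` be the quotient `Y / G`: the
homomorphism `ι : R → A` is injective and its image consists of the invariants. If `(X, S + B)` is a plt pair,
then `S` is normal. -/
theorem result : ∀ (n p : ℕ), p.Prime → 3 * n * (n - 1) < 2 * p →
    ∀ (k : Type u) [Field k] [IsAlgClosed k] [CharP k p]
    (A : Type u) [CommRing A] [IsDomain A] [Algebra k A] [Algebra.Smooth k A], ringKrullDim A = n →
    ∀ (G : Type u) [Group G] [Finite G] [MulSemiringAction G A] [SMulCommClass G k A],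
    (∀ g : G, g ≠ 1 → ∀ Q : Ideal A, Q.IsPrime → Q.height = 1 → ∃ a : A, g • a - a ∉ Q) →
    ∀ (R : Type u) [CommRing R] [IsDomain R] [Algebra k R] (ι : R →ₐ[k] A), Function.Injective ι →
    (∀ a : A, (∃ r : R, ι r = a) ↔ ∀ g : G, g • a = a) →
    ∀ (S : Ideal R) (B : Ideal R → ℚ), IsPlt k (FractionRing R) R n S B →
    IsIntegrallyClosed (R ⧸ S) :=
  Pool.Agent.QS.ALL

end Pool.Agent.Results.MP_74cfa5_ag.QuotientSingularities
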